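import Pool.Agent.N356.SP.Defs

set_option autoImplicit false

/-! LS12a: the functional `S` (project LS of helper356). -/

namespace Pool.Agent.N765.LS

open Finset Pool.Agent.H384R3.SPk Pool.Agent.N356.SP

/-- trigonometric polynomials with nonnegative coefficients -/
def Pos (u : ℝ → ℂ) : Prop :=
  ∃ (ι : Type) (s : Finset ι) (n : ι → ℤ) (a : ι → ℝ), (∀ i, 0 ≤ a i) ∧
    ∀ x, u x = ∑ i ∈ s, (a i : ℂ) * e (n i) x

lemma Pos.one : Pos (fun _ => 1) := by
  refine ⟨Unit, Finset.univ, fun _ => 0, fun _ => 1, fun _ => zero_le_one, fun x => ?_⟩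
  simp [C.e_zero]

lemma Pos.mul {u v : ℝ → ℂ} (hu : Pos u) (hv : Pos v) : Pos (fun x => u x * v x) := by
  obtain ⟨ι, s, n, a, ha, hu⟩ := hu
  obtain ⟨κ, t, m, b, hb, hv⟩ := hv
  refine ⟨ι × κ, s ×ˢ t, fun p => n p.1 + m p.2, fun p => a p.1 * b p.2,
    fun p => mul_nonneg (ha _) (hb _), fun x => ?_⟩
  show u x * v x = _
  rw [hu, hv, sum_mul_sum, sum_product]
  refine sum_congr rfl fun i _ => sum_congr rfl fun j _ => ?_
  show _ = ((a i * b j : ℝ) : ℂ) * C.e (n i + m j) x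
  rw [C.e_add]
  push_cast
  ring

lemma Pos.pow {u : ℝ → ℂ} (hu : Pos u) (j : ℕ) : Pos (fun x => u x ^ j) := by
  induction j with
  | zero => simpa using Pos.one
  | succ j ih =>
    have := ih.mul hu
    simpa [pow_succ] using this

lemma Pos.cont {u : ℝ → ℂ} (hu : Pos u) : Continuous u := by
  obtain ⟨ι, s, n, a, ha, hu⟩ := hu
  have : u = fun x => ∑ i ∈ s, (a i : ℂ) * e (n i) x := funext hu
  rw [this]
  exact continuous_finsetSum _ fun t _ => (C.e_cont _).const_mul _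

lemma Pos.integral {u : ℝ → ℂ} (hu : Pos u) :
    ∃ r : ℝ, 0 ≤ r ∧ ∫ x in (0:ℝ)..1, u x = (r : ℂ) := by
  obtain ⟨ι, s, n, a, ha, hu⟩ := hu
  refine ⟨∑ i ∈ s, if n i = 0 then a i else 0, sum_nonneg fun i _ => by split_ifs; exacts [ha i, le_rfl], ?_⟩
  simp_rw [hu]
  rw [intervalIntegral.integral_finsetSum]
  · push_cast
    refine sum_congr rfl fun i _ => ?_
    rw [intervalIntegral.integral_const_mul]
    show (a i : ℂ) * ∫ x in (0:ℝ)..1, C.e (n i) x = _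
    rw [C.ortho]
    split_ifs <;> simp
  · intro i _
    exact ((C.e_cont _).const_mul _ |>.intervalIntegrable _ _)

lemma F_eq (h : ℤ →₀ ℝ) (x : ℝ) : F h x = ∑ n ∈ h.support, (h n : ℂ) * e n x := rfl

lemma Fconj_eq (h : ℤ →₀ ℝ) (x : ℝ) :
    (starRingEnd ℂ) (F h x) = ∑ n ∈ h.support, (h n : ℂ) * e (-n) x := by
  rw [F_eq, map_sum]
  refine sum_congr rfl fun n _ => ?_
  rw [map_mul, Complex.conj_ofReal]
  show _ * (starRingEnd ℂ) (C.e n x) = _
  rw [C.e_conj]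

lemma posF {h : ℤ →₀ ℝ} (h0 : ∀ n, 0 ≤ h n) : Pos (F h) :=
  ⟨ℤ, h.support, fun n => n, h, h0, F_eq h⟩

lemma posFc {h : ℤ →₀ ℝ} (h0 : ∀ n, 0 ≤ h n) : Pos (fun x => (starRingEnd ℂ) (F h x)) :=
  ⟨ℤ, h.support, fun n => -n, h, h0, Fconj_eq h⟩

lemma cosp_F (h : ℤ →₀ ℝ) (x : ℝ) :
    ((cosp h x : ℝ) : ℂ) = F h x + (starRingEnd ℂ) (F h x) := by
  rw [Fconj_eq, F_eq, ← sum_add_distrib]
  unfold cosp Finsupp.sum
  push_cast
  refine sum_congr rfl fun n _ => ?_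
  rw [← mul_add]
  congr 1
  rw [Complex.two_cos]
  show _ = Complex.exp (2 * Real.pi * Complex.I * n * x) +
    Complex.exp (2 * Real.pi * Complex.I * ((-n : ℤ) : ℂ) * x)
  congr 1
  · congr 1; ring
  · congr 1; push_cast; ring

/-- expansion of the even moment -/
lemma Mc_expand {h : ℤ →₀ ℝ} (h0 : ∀ n, 0 ≤ h n) (k : ℕ) :
    ((Mc k h : ℝ) : ℂ) = ∑ j ∈ range (2 * k + 1),
      (∫ x in (0:ℝ)..1, F h x ^ j * (starRingEnd ℂ) (F h x) ^ (2 * k - j)) *
        ((2 * k).choose j : ℂ) := by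
  unfold Mc
  rw [← intervalIntegral.integral_ofReal]
  have h2 : ∀ x : ℝ, ((cosp h x ^ (2 * k) : ℝ) : ℂ) = ∑ j ∈ range (2 * k + 1),
      F h x ^ j * (starRingEnd ℂ) (F h x) ^ (2 * k - j) * ((2 * k).choose j : ℂ) := by
    intro x
    rw [Complex.ofReal_pow, cosp_F, add_pow]
  simp_rw [h2]
  rw [intervalIntegral.integral_finsetSum]
  · refine sum_congr rfl fun j _ => ?_
    rw [intervalIntegral.integral_mul_const]
  · intro j _
    refine Continuous.intervalIntegrable ?_ _ _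
    exact ((((posF h0).pow j).mul ((posFc h0).pow (2 * k - j))).cont).mul continuous_const

lemma M_eq (k : ℕ) (h : ℤ →₀ ℝ) :
    ((M k h : ℝ) : ℂ) = ∫ x in (0:ℝ)..1, F h x ^ k * (starRingEnd ℂ) (F h x) ^ k := by
  unfold M
  rw [← intervalIntegral.integral_ofReal]
  congr 1
  ext x
  rw [← mul_pow, Complex.mul_conj']
  push_cast
  rw [pow_mul]

/-- the moment of the cosine polynomial dominates the moment of the analytic part -/
theorem choose_M_le {h : ℤ →₀ ℝ} (h0 : ∀ n, 0 ≤ h n) (k : ℕ) :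
    ((2 * k).choose k : ℝ) * M k h ≤ Mc k h := by
  have hint : ∀ j : ℕ, ∃ r : ℝ, 0 ≤ r ∧
      ∫ x in (0:ℝ)..1, F h x ^ j * (starRingEnd ℂ) (F h x) ^ (2 * k - j) = (r : ℂ) :=
    fun j => (((posF h0).pow j).mul ((posFc h0).pow (2 * k - j))).integral
  choose r r0 hr using hint
  have h1 := Mc_expand h0 k
  have h2 : ((Mc k h : ℝ) : ℂ) = ((∑ j ∈ range (2 * k + 1), r j * ((2 * k).choose j : ℝ) : ℝ) : ℂ) := by
    rw [h1]
    push_cast
    exact sum_congr rfl fun j _ => by rw [hr]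
  have h3 : Mc k h = ∑ j ∈ range (2 * k + 1), r j * ((2 * k).choose j : ℝ) := by
    exact_mod_cast h2
  have h4 : M k h = r k := by
    have h5 := hr k
    rw [show 2 * k - k = k by omega, ← M_eq] at h5
    exact_mod_cast h5
  rw [h3, h4, mul_comm]
  exact single_le_sum (f := fun j => r j * ((2 * k).choose j : ℝ))
    (fun j _ => mul_nonneg (r0 j) (Nat.cast_nonneg _)) (mem_range.2 (by omega))

/-- counting for admissible polynomials -/
theorem pow_le_card {k : ℕ} (hk : 1 ≤ k) {A : Finset ℤ} {s : ℝ} (hs : s ∈ Sset k A) :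
    0 ≤ s ∧ s ^ (2 * k) ≤ ((sumset k A).card : ℝ) := by
  obtain ⟨h, h0, hsub, hM, rfl⟩ := hs
  refine ⟨sum_nonneg fun n _ => h0 n, ?_⟩
  have h1 := C.taskC k hk A h hsub h0
  have h2 := choose_M_le h0 k
  have hc : (0:ℝ) < ((2 * k).choose k : ℝ) := by
    exact_mod_cast Nat.choose_pos (by omega)
  have h3 : M k h ≤ 1 := by
    by_contra hlt
    push Not at hlt
    nlinarith
  calc _ ≤ _ := h1
    _ ≤ ((sumset k A).card : ℝ) * 1 := by gcongr
    _ = _ := mul_one _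

lemma bdd {k : ℕ} (hk : 1 ≤ k) (A : Finset ℤ) :
    ∀ s ∈ Sset k A, s ≤ ((sumset k A).card : ℝ) ^ ((1:ℝ) / (2 * k : ℕ)) := by
  intro s hs
  obtain ⟨h0, h1⟩ := pow_le_card hk hs
  have h2 : s = (s ^ (2 * k)) ^ ((1:ℝ) / (2 * k : ℕ)) := by
    rw [← Real.rpow_natCast s (2 * k), ← Real.rpow_mul h0, mul_one_div_cancel, Real.rpow_one]
    exact_mod_cast (by omega : 2 * k ≠ 0)
  rw [h2]
  exact Real.rpow_le_rpow (pow_nonneg h0 _) h1 (by positivity)

lemma bddAbove {k : ℕ} (hk : 1 ≤ k) (A : Finset ℤ) : BddAbove (Sset k A) :=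
  ⟨_, fun _ hs => bdd hk A _ hs⟩

lemma zero_mem {k : ℕ} (hk : 1 ≤ k) (A : Finset ℤ) : (0:ℝ) ∈ Sset k A := by
  refine ⟨0, fun n => le_rfl, by simp, ?_, by simp⟩
  have : Mc k 0 = 0 := by
    unfold Mc cosp
    simp [show 2 * k ≠ 0 by omega]
  rw [this]
  exact Nat.cast_nonneg _

lemma S_nonneg {k : ℕ} (hk : 1 ≤ k) (A : Finset ℤ) : 0 ≤ S k A :=
  le_csSup (bddAbove hk A) (zero_mem hk A)

lemma Sset_mono {k : ℕ} {A' A : Finset ℤ} (h : A' ⊆ A) : Sset k A' ⊆ Sset k A := by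
  rintro s ⟨f, f0, hf, hM, rfl⟩
  refine ⟨f, f0, hf.trans h, hM, ?_⟩
  symm
  refine sum_subset h fun n _ hn => ?_
  by_contra h1
  exact hn (hf (Finsupp.mem_support_iff.2 h1))

/-- LS12a -/
theorem S_sub {k : ℕ} (hk : 1 ≤ k) {A' A : Finset ℤ} (h : A' ⊆ A) (_hpos : ∀ a ∈ A, 0 < a) :
    S k A' ≤ S k A :=
  csSup_le_csSup (bddAbove hk A) ⟨0, zero_mem hk A'⟩ (Sset_mono h)

lemma Mc_single (k : ℕ) {a : ℤ} (ha : a ≠ 0) :
    Mc k (Finsupp.single a 1) = ((2 * k).choose k : ℝ) := by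
  have h0 : ∀ n, 0 ≤ (Finsupp.single a (1:ℝ)) n := by
    intro n
    rw [Finsupp.single_apply]
    split_ifs <;> norm_num
  have hF : ∀ x, F (Finsupp.single a 1) x = C.e a x := by
    intro x
    unfold F
    rw [Finsupp.sum_single_index]
    · simp [C.e]
    · simp
  have hpow : ∀ (n : ℤ) (j : ℕ) (x : ℝ), C.e n x ^ j = C.e (j * n) x := by
    intro n j x
    induction j with
    | zero => simp [C.e_zero]
    | succ j ih =>
      rw [pow_succ, ih, ← C.e_add]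
      congr 1
      push_cast
      ring
  have h1 := Mc_expand h0 k
  have h2 : ∀ j ∈ range (2 * k + 1),
      (∫ x in (0:ℝ)..1, F (Finsupp.single a 1) x ^ j *
        (starRingEnd ℂ) (F (Finsupp.single a 1) x) ^ (2 * k - j)) * ((2 * k).choose j : ℂ) =
      if j = k then ((2 * k).choose k : ℂ) else 0 := by
    intro j hj
    rw [mem_range] at hj
    have h3 : ∀ x, F (Finsupp.single a 1) x ^ j *
        (starRingEnd ℂ) (F (Finsupp.single a 1) x) ^ (2 * k - j) =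
        C.e (j * a + ((2 * k - j : ℕ) : ℤ) * (-a)) x := by
      intro x
      rw [hF, C.e_conj, hpow, hpow, C.e_add]
    simp_rw [h3]
    rw [C.ortho]
    by_cases hjk : j = k
    · subst hjk
      rw [if_pos, if_pos rfl, one_mul]
      rw [show 2 * j - j = j by omega]
      ring
    · rw [if_neg, if_neg hjk, zero_mul]
      intro h4
      have h5 : ((j : ℤ) - ((2 * k - j : ℕ) : ℤ)) * a = 0 := by linarith
      rcases mul_eq_zero.1 h5 with h6 | h6
      · omega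
      · exact ha h6
  rw [sum_congr rfl h2, sum_ite_eq' (range (2 * k + 1)) k, if_pos (mem_range.2 (by omega))] at h1
  exact_mod_cast h1

theorem one_le_S {k : ℕ} (hk : 1 ≤ k) {A : Finset ℤ} (hA : A.Nonempty) (hpos : ∀ a ∈ A, 0 < a) :
    1 ≤ S k A := by
  obtain ⟨a, ha⟩ := hA
  refine le_csSup (bddAbove hk A) ⟨Finsupp.single a 1, fun n => ?_, ?_, ?_, ?_⟩
  · rw [Finsupp.single_apply]
    split_ifs <;> norm_num
  · exact Finsupp.support_single_subset.trans (singleton_subset_iff.2 ha)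
  · exact (Mc_single k (hpos a ha).ne').le
  · rw [sum_eq_single a]
    · simp
    · intro b _ hb
      exact Finsupp.single_eq_of_ne hb
    · intro h
      exact absurd ha h

/-- LS12b -/
theorem S_pow {k : ℕ} (hk : 1 ≤ k) {A : Finset ℤ} (_hA : A.Nonempty) (_hpos : ∀ a ∈ A, 0 < a) :
    S k A ^ (2 * k) ≤ ((sumset k A).card : ℝ) := by
  have h1 : S k A ≤ ((sumset k A).card : ℝ) ^ ((1:ℝ) / (2 * k : ℕ)) :=
    csSup_le ⟨0, zero_mem hk A⟩ (bdd hk A)
  calc S k A ^ (2 * k) ≤ (((sumset k A).card : ℝ) ^ ((1:ℝ) / (2 * k : ℕ))) ^ (2 * k) :=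
        pow_le_pow_left₀ (S_nonneg hk A) h1 _
    _ = _ := by
        rw [← Real.rpow_natCast _ (2 * k), ← Real.rpow_mul (Nat.cast_nonneg _),
          one_div_mul_cancel, Real.rpow_one]
        exact_mod_cast (by omega : 2 * k ≠ 0)

end Pool.Agent.N765.LS
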